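import Mathlib

set_option autoImplicit false

namespace Pool.Agent.H.MP_8fd369_lc

open Set Function Cardinal Ordinal

abbrev W := (ω₁ : Ordinal.{0}).ToType

theorem mkW : #W = ℵ₁ := by simp

theorem cI (a : W) : (Iic a).Countable := le_aleph0_iff_set_countable.1 (lt_aleph_one_iff.1
  (mkW ▸ mk_Iic_lt a (by simp) (mkW ▸ aleph0_le_aleph 1)))

theorem uncW : ¬ (univ : Set W).Countable := fun h =>
  (le_aleph0_iff_set_countable.2 h).not_gt (by simp)

theorem bdd {s : Set W} (h : s.Countable) : ∃ b, ∀ a ∈ s, a < b := by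
  by_contra hn
  push Not at hn
  refine uncW ((h.biUnion fun a _ => cI a).mono fun b _ => ?_)
  obtain ⟨a, ha, hb⟩ := hn b
  exact mem_biUnion ha hb

theorem fib {α β : Type} {s : Set α} (h : α → β) {t : Set β} (ht : t.Countable)
    (hm : ∀ x ∈ s, h x ∈ t) (hs : ¬ s.Countable) : ∃ y, ¬ {x ∈ s | h x = y}.Countable := by
  by_contra hn
  push Not at hn
  exact hs ((ht.biUnion fun y _ => hn y).mono fun x hx =>
    mem_biUnion (hm x hx) (show x ∈ s ∧ h x = h x from ⟨hx, rfl⟩))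

theorem evc {Y : Type} [PartialOrder Y] (h : W → Y) (hm : Monotone h) {t : Set Y}
    (ht : t.Countable) (hr : ∀ x, h x ∈ t) : ∃ a, ∀ b, a ≤ b → h b = h a := by
  obtain ⟨y, hy⟩ := fib (s := univ) h ht (fun x _ => hr x) uncW
  have h1 : ∀ b, ∃ c, b ≤ c ∧ h c = y := fun b => by
    by_contra hn
    push Not at hn
    exact hy ((cI b).mono fun c hc => le_of_not_ge fun h2 => hn c h2 hc.2)
  obtain ⟨a0, -⟩ := bdd countable_empty
  obtain ⟨a, -, ha⟩ := h1 a0
  refine ⟨a, fun b hb => ?_⟩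
  obtain ⟨c, hc, hc'⟩ := h1 b
  exact le_antisymm ((hm hc).trans (hc'.trans ha.symm).le) (hm hb)

theorem coh : ∃ e : W → W × ℕ → ℕ, ∀ a, (∀ k, {p : W × ℕ | p.1 ≤ a ∧ e a p ≤ k}.Finite) ∧
    ∀ b, b < a → {p : W × ℕ | p.1 ≤ b ∧ e a p ≠ e b p}.Finite := by
  classical
  let P : ∀ a : W, (∀ b, b < a → W × ℕ → ℕ) → (W × ℕ → ℕ) → Prop := fun a f g =>
    (∀ k, {p : W × ℕ | p.1 ≤ a ∧ g p ≤ k}.Finite) ∧
      ∀ b (h : b < a), {p : W × ℕ | p.1 ≤ b ∧ g p ≠ f b h p}.Finite
  let e : W → W × ℕ → ℕ := wellFounded_lt.fix fun a ih => Classical.epsilon (P a ih)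
  refine ⟨e, fun a => ?_⟩
  refine wellFounded_lt.induction (C := fun a => P a (fun b _ => e b) (e a)) a fun a ih => ?_
  rw [show e a = _ from wellFounded_lt.fix_eq _ a]
  apply Classical.epsilon_spec
  have hf : ∀ k, {p : W × ℕ | p.1 = a ∧ p.2 ≤ k}.Finite := fun k =>
    ((finite_singleton a).prod (finite_Iic k)).subset fun p hp => ⟨hp.1, hp.2⟩
  rcases (Iio a).eq_empty_or_nonempty with h0 | h0
  · refine ⟨fun p => p.2, fun k => (hf k).subset fun p hp => ⟨?_, hp.2⟩,
      fun b h => (h0.subset (show b ∈ Iio a from h)).elim⟩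
    exact hp.1.eq_or_lt.resolve_right fun h => h0.subset (show p.1 ∈ Iio a from h)
  obtain ⟨γ, hγ⟩ := ((cI a).mono Iio_subset_Iic_self).exists_eq_range h0
  have g1 : ∀ n, γ n < a := fun n => hγ.ge (mem_range_self n)
  have g2 : ∀ b, b < a → ∃ n, b ≤ γ n := fun b h => by
    obtain ⟨n, hn⟩ := hγ.le h
    exact ⟨n, hn.ge⟩
  have co : ∀ b c, b < a → c < a →
      {p : W × ℕ | p.1 ≤ b ∧ p.1 ≤ c ∧ e b p ≠ e c p}.Finite := fun b c hb hc => by
    rcases lt_trichotomy b c with h | h | h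
    · exact ((ih c hc).2 b h).subset fun p hp => ⟨hp.1, hp.2.2.symm⟩
    · subst h
      exact finite_empty.subset fun p hp => hp.2.2 rfl
    · exact ((ih b hb).2 c h).subset fun p hp => ⟨hp.2.1, hp.2.2⟩
  refine ⟨fun p => if h : p.1 < a then max (Nat.find (g2 _ h)) (e (γ (Nat.find (g2 _ h))) p)
    else p.2, fun k => ?_, fun b hb => ?_⟩
  · refine ((hf k).union ((finite_Iic k).biUnion fun n _ => (ih _ (g1 n)).1 k)).subset
      fun p hp => ?_
    by_cases h : p.1 < a
    · have h2 := hp.2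
      simp only [dif_pos h, max_le_iff] at h2
      exact Or.inr (mem_biUnion h2.1 ⟨Nat.find_spec (g2 _ h), h2.2⟩)
    · have h2 := hp.2
      simp only [dif_neg h] at h2
      exact Or.inl ⟨hp.1.eq_or_lt.resolve_right h, h2⟩
  · obtain ⟨m, hm⟩ := g2 b hb
    refine ((finite_Iic m).biUnion fun n _ =>
      ((ih _ (g1 n)).1 n).union (co (γ n) b (g1 n) hb)).subset fun p hp => ?_
    have h : p.1 < a := hp.1.trans_lt hb
    have h2 := hp.2
    simp only [dif_pos h] at h2
    refine mem_biUnion (show Nat.find (g2 _ h) ∈ Iic m from Nat.find_min' _ (hp.1.trans hm)) ?_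
    have h3 := Nat.find_spec (g2 _ h)
    rcases le_total (Nat.find (g2 _ h)) (e (γ (Nat.find (g2 _ h))) p) with h4 | h4
    · rw [max_eq_right h4] at h2
      exact Or.inr ⟨h3, hp.1, h2⟩
    · exact Or.inl ⟨h3, h4⟩

noncomputable def e : W → W × ℕ → ℕ := coh.choose

abbrev B := Lex (ℕ → ℕ)
abbrev X := Lex (W → B)

def Node (a : W) (x : X) : Prop :=
  (∀ η, a ≤ η → x η = ⊥) ∧ {p : W × ℕ | p.1 < a ∧ x p.1 p.2 ≠ e a p}.Finite

open Classical in
noncomputable def res (a : W) (x : X) : X := toLex fun η => if η < a then x η else ⊥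

theorem res_lt {a η : W} (x : X) (h : η < a) : res a x η = x η := if_pos h
theorem res_ge {a η : W} (x : X) (h : a ≤ η) : res a x η = ⊥ := if_neg h.not_gt

theorem res_le (a : W) (x : X) : res a x ≤ x :=
  Pi.toLex_monotone (show (fun η => res a x η) ≤ fun η => x η from fun η => by
    rcases lt_or_ge η a with h | h
    · exact (res_lt x h).le
    · exact (res_ge x h).le.trans bot_le)

theorem res_ext {a : W} {x y : X} (h : ∀ η, η < a → x η = y η) : res a x = res a y :=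
  funext fun η => by
    rcases lt_or_ge η a with h1 | h1
    · exact (res_lt x h1).trans ((h η h1).trans (res_lt y h1).symm)
    · exact (res_ge x h1).trans (res_ge y h1).symm

theorem res_mono (a : W) : Monotone (res a) := fun x y h => by
  rcases h.eq_or_lt with rfl | ⟨ξ, h1, h2⟩
  · exact le_rfl
  rcases lt_or_ge ξ a with h3 | h3
  · refine le_of_lt ⟨ξ, fun j hj => ?_, ?_⟩
    · exact (res_lt x (hj.trans h3)).trans ((h1 j hj).trans (res_lt y (hj.trans h3)).symm)
    · show res a x ξ < res a y ξ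
      rw [res_lt x h3, res_lt y h3]
      exact h2
  · exact (res_ext fun η hη => h1 η (hη.trans_le h3)).le

theorem Node.res_eq {a b : W} {x : X} (h : Node a x) (hab : a ≤ b) : res b x = x :=
  funext fun η => by
    rcases lt_or_ge η b with h1 | h1
    · exact res_lt x h1
    · exact (res_ge x h1).trans (h.1 η (hab.trans h1)).symm

theorem Node.res {a b : W} {x : X} (h : Node a x) (hab : b ≤ a) : Node b (res b x) := by
  refine ⟨fun η => res_ge x, ?_⟩
  rcases hab.eq_or_lt with rfl | hl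
  · exact h.2.subset fun p hp => ⟨hp.1, by have := hp.2; rwa [res_lt x hp.1] at this⟩
  refine (h.2.union ((coh.choose_spec a).2 b hl)).subset fun p hp => ?_
  have h2 := hp.2
  rw [res_lt x hp.1] at h2
  by_cases h3 : x p.1 p.2 = e a p
  · exact Or.inr ⟨hp.1.le, fun h4 => h2 (h3.trans h4)⟩
  · exact Or.inl ⟨hp.1.trans hl, h3⟩

theorem Node.fin {a : W} {x : X} (h : Node a x) (k : ℕ) :
    {p : W × ℕ | p.1 < a ∧ x p.1 p.2 ≤ k}.Finite := by
  refine (h.2.union ((coh.choose_spec a).1 k)).subset fun p hp => ?_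
  by_cases h3 : x p.1 p.2 = e a p
  · exact Or.inr ⟨hp.1.le, h3.ge.trans hp.2⟩
  · exact Or.inl ⟨hp.1, h3⟩

theorem Node.ne_bot {a η : W} {x : X} (h : Node a x) (hη : η < a) : x η ≠ ⊥ := fun h0 => by
  refine infinite_of_injective_forall_mem (f := fun n : ℕ => (η, n))
    (fun _ _ h => (Prod.ext_iff.1 h).2) (fun n => ?_) (h.fin 0)
  refine ⟨hη, ?_⟩
  show x η n ≤ 0
  rw [h0]
  exact le_rfl

theorem cNode (a : W) : {x | Node a x}.Countable := by
  have hc : (((Iic a) ×ˢ (univ : Set ℕ)) ×ˢ (univ : Set ℕ)).Countable :=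
    ((cI a).prod countable_univ).prod countable_univ
  refine MapsTo.countable_of_injOn
    (f := fun x : X => (fun p : W × ℕ => (p, x p.1 p.2)) '' {p | p.1 < a ∧ x p.1 p.2 ≠ e a p})
    (fun x hx => ?_) (fun x hx y hy h => ?_) (countable_ofPred_finite_subset hc)
  · refine ⟨hx.2.image _, ?_⟩
    rintro _ ⟨p, hp, rfl⟩
    exact ⟨⟨hp.1.le, trivial⟩, trivial⟩
  · funext η
    rcases lt_or_ge η a with h1 | h1
    · funext n
      by_cases h2 : x η n = e a (η, n)
      · by_cases h3 : y η n = e a (η, n)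
        · exact h2.trans h3.symm
        · obtain ⟨p, -, hp⟩ := h.ge ⟨(η, n), ⟨h1, h3⟩, rfl⟩
          obtain ⟨rfl, h4⟩ := Prod.ext_iff.1 hp
          exact h4
      · obtain ⟨p, -, hp⟩ := h.le ⟨(η, n), ⟨h1, h2⟩, rfl⟩
        obtain ⟨rfl, h4⟩ := Prod.ext_iff.1 hp
        exact h4.symm
    · exact (hx.1 η h1).trans (hy.1 η h1).symm

def Low (a : W) : Set X := {x | ∃ b, b ≤ a ∧ Node b x}

theorem cLow (a : W) : (Low a).Countable :=
  ((cI a).biUnion fun b _ => cNode b).mono fun _ ⟨_, h1, h2⟩ => mem_biUnion h1 h2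

abbrev L := {x : X // ∃ a, Node a x}

theorem res_low (a : W) (x : L) : res a x.1 ∈ Low a := by
  obtain ⟨b, hb⟩ := x.2
  rcases le_total b a with h | h
  · exact ⟨b, h, by rwa [hb.res_eq h]⟩
  · exact ⟨a, le_rfl, hb.res h⟩

theorem nobranch (f : W → L) (hf : Injective f)
    (h : ∀ a, ∃ c, ∀ d, c ≤ d → res a (f d).1 = res a (f c).1) : False := by
  have h1 : ∀ a, ∃ c, (f c).1 ∉ Low a ∧ ∀ d, c ≤ d → res a (f d).1 = res a (f c).1 := fun a => by
    obtain ⟨c, hc⟩ := h a
    obtain ⟨b, hb⟩ := bdd ((cLow a).preimage_of_injOn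
      (f := fun d => (f d).1) (Subtype.val_injective.comp hf).injOn)
    refine ⟨max b c, fun h2 => (hb _ h2).not_ge (le_max_left _ _), fun d hd => ?_⟩
    rw [hc d ((le_max_right _ _).trans hd), hc _ (le_max_right _ _)]
  choose c c1 c2 using h1
  choose s hs using fun a : W => bdd (countable_singleton a)
  let g : W → ℕ := fun η => (f (c (s η))).1 η 0
  have hg : ∀ a η, η < a → (f (c a)).1 η 0 = g η := fun a η hη => by
    have h2 := congrFun (c2 a (max (c a) (c (s η))) (le_max_left _ _)) η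
    have h3 := congrFun (c2 (s η) (max (c a) (c (s η))) (le_max_right _ _)) η
    rw [res_lt _ hη, res_lt _ hη] at h2
    rw [res_lt _ (hs η η rfl), res_lt _ (hs η η rfl)] at h3
    show _ = (f (c (s η))).1 η 0
    rw [← h2, h3]
  obtain ⟨k, hk⟩ := fib (s := univ) g countable_univ (fun _ _ => trivial) uncW
  let u := Set.Infinite.natEmbedding _ (fun h => hk h.countable)
  obtain ⟨a, ha⟩ := bdd (countable_range fun n => (u n).1)
  obtain ⟨b, hb⟩ := (f (c a)).2
  have hab : a < b := lt_of_not_ge fun h2 => c1 a ⟨b, h2, hb⟩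
  refine infinite_of_injective_forall_mem (f := fun n : ℕ => ((u n).1, 0))
    (fun _ _ h => u.injective (Subtype.ext (Prod.ext_iff.1 h).1)) (fun n => ?_) (hb.fin k)
  have h2 := ha _ (mem_range_self n)
  exact ⟨h2.trans hab, ((hg a _ h2).trans (u n).2.2).le⟩

theorem free1 : IsEmpty (W ↪o L) := ⟨fun f => nobranch f f.injective fun a =>
  evc (fun d => res a (f d).1) (fun _ _ h => res_mono a (f.monotone h)) (cLow a)
    fun _ => res_low a _⟩

theorem free2 : IsEmpty (Wᵒᵈ ↪o L) := ⟨fun f =>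
  nobranch (fun d => f (OrderDual.toDual d)) (f.injective.comp OrderDual.toDual.injective) fun a =>
    evc (Y := Xᵒᵈ) (fun d => res a (f (OrderDual.toDual d)).1)
      (fun _ _ h => res_mono a (f.monotone (OrderDual.toDual_le_toDual.2 h))) (cLow a)
      fun _ => res_low a _⟩

theorem noreal (S : Set L) (g : S ↪o ℝ) : S.Countable := by
  classical
  by_contra hS
  have hS' : ¬ (univ : Set S).Countable := fun h => hS (countable_coe_iff.1 (countable_univ_iff.1 h))
  obtain ⟨x0, -⟩ := (Set.Infinite.nonempty fun h => hS' h.countable)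
  have h1 : ∀ q : ℚ × ℚ, ∃ d : S, ∀ z : S, (q.1 : ℝ) < g z → g z < q.2 →
      (q.1 : ℝ) < g d ∧ g d < q.2 := fun q => by
    by_cases h : ∃ z : S, (q.1 : ℝ) < g z ∧ g z < q.2
    · exact ⟨h.choose, fun _ _ _ => h.choose_spec⟩
    · exact ⟨x0, fun z h1 h2 => (h ⟨z, h1, h2⟩).elim⟩
  choose d hd using h1
  choose ht hht using fun q => (d q).1.2
  obtain ⟨a, ha⟩ := bdd (countable_range ht)
  obtain ⟨y, hy⟩ := fib (fun x : S => res a x.1.1) (cLow a) (fun x _ => res_low a x.1) hS'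
  obtain ⟨t, t1, t2⟩ := (Set.Infinite.exists_subset_card_eq (fun h => hy h.countable) 3)
  let o := t.orderEmbOfFin t2
  have ho : ∀ i, res a (o i).1.1 = y := fun i => (t1 (t.orderEmbOfFin_mem t2 i)).2
  obtain ⟨q, q1, q2⟩ := exists_rat_btwn (g.strictMono (o.strictMono (show (0 : Fin 3) < 1 by decide)))
  obtain ⟨r, r1, r2⟩ := exists_rat_btwn (g.strictMono (o.strictMono (show (1 : Fin 3) < 2 by decide)))
  obtain ⟨d1, d2⟩ := hd (q, r) _ q2 r1
  have h2 : o 0 < d (q, r) := g.lt_iff_lt.1 (q1.trans d1)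
  have h3 : d (q, r) < o 2 := g.lt_iff_lt.1 (d2.trans r2)
  have h4 := res_mono a (show (d (q, r)).1.1 ≤ (o 2).1.1 from h3.le)
  rw [(hht _).res_eq (ha _ (mem_range_self _)).le, ho, ← ho 0] at h4
  exact (h4.trans (res_le a _)).not_gt h2

theorem nodeE (a : W) : Node a (res a (toLex fun η => toLex fun n => e a (η, n))) :=
  ⟨fun η => res_ge _, finite_empty.subset fun p hp => hp.2 (by rw [res_lt _ hp.1]; rfl)⟩

theorem Node.uniq {a b : W} {x : X} (h : Node a x) (h' : Node b x) : a = b :=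
  le_antisymm (le_of_not_gt fun h1 => h.ne_bot h1 (h'.1 b le_rfl))
    (le_of_not_gt fun h1 => h'.ne_bot h1 (h.1 a le_rfl))

theorem uncL : Uncountable L := by
  have : Uncountable W := not_countable_iff.1 fun h => uncW countable_univ
  refine Injective.uncountable (f := fun a : W => (⟨_, a, nodeE a⟩ : L)) fun a b h => ?_
  have h1 := nodeE a
  rw [show res a _ = res b _ from congrArg Subtype.val h] at h1
  exact h1.uniq (nodeE b)

noncomputable def ht (x : L) : W := x.2.choose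

theorem hht (x : L) : Node (ht x) x.1 := x.2.choose_spec

def Good (x b : L) : Prop := x < b ∧ res (ht x) b.1 = x.1 ∧ b.1 (ht x) 0 = 0

theorem mv0 (x : L) (i : ℕ) : ∃ b, Good x b ∧ ∀ j ≤ i, b.1 (ht x) j = 0 := by
  classical
  obtain ⟨c0, hc0⟩ := bdd (countable_singleton (ht x))
  obtain ⟨c, c1, c2⟩ := wellFounded_lt.has_min (Ioi (ht x)) ⟨c0, hc0 _ rfl⟩
  let b : X := toLex fun η => if η = ht x then toLex fun j => if j ≤ i then 0 else e c (η, j)
    else x.1 η
  have b1 : ∀ η, η ≠ ht x → b η = x.1 η := fun η h => if_neg h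
  have b2 : ∀ j, b (ht x) j = if j ≤ i then 0 else e c (ht x, j) := fun j =>
    congrFun (if_pos rfl) j
  have hb : Node c b := by
    refine ⟨fun η h => (b1 η (c1.trans_le h).ne').trans ((hht x).1 η (c1.le.trans h)), ?_⟩
    refine (((hht x).2.union ((coh.choose_spec c).2 _ c1)).union
      ((finite_singleton (ht x)).prod (finite_Iic i))).subset fun p hp => ?_
    rcases (le_of_not_gt fun h : ht x < p.1 => c2 _ h hp.1).eq_or_lt with h | h
    · refine Or.inr ⟨h, le_of_not_gt fun h2 : i < p.2 => hp.2 ?_⟩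
      obtain ⟨p1, p2⟩ := p
      subst h
      exact (b2 p2).trans (if_neg h2.not_ge)
    · have h2 := hp.2
      rw [b1 _ h.ne] at h2
      by_cases h3 : x.1 p.1 p.2 = e (ht x) p
      · exact Or.inl (Or.inr ⟨h.le, fun h4 => h2 (h3.trans h4.symm)⟩)
      · exact Or.inl (Or.inl ⟨h, h3⟩)
  have b3 : ∀ j ≤ i, b (ht x) j = 0 := fun j hj => (b2 j).trans (if_pos hj)
  refine ⟨⟨b, c, hb⟩, ⟨⟨ht x, fun j hj => (b1 j hj.ne).symm, ?_⟩, ?_, b3 0 i.zero_le⟩, b3⟩
  · show x.1 (ht x) < b (ht x)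
    rw [(hht x).1 _ le_rfl]
    exact bot_lt_iff_ne_bot.2 (hb.ne_bot c1)
  · exact (res_ext fun η h => b1 η h.ne).trans ((hht x).res_eq le_rfl)

theorem mv (x y : L) (h : x < y) : ∃ b, Good x b ∧ b < y := by
  classical
  obtain ⟨ξ, h1, h2⟩ : x.1 < y.1 := h
  rcases lt_or_ge ξ (ht x) with h3 | h3
  · obtain ⟨b, hb, -⟩ := mv0 x 0
    have h4 : ∀ η, η < ht x → b.1 η = x.1 η := fun η hη =>
      (res_lt _ hη).symm.trans (congrFun hb.2.1 η)
    exact ⟨b, hb, ξ, fun j hj => (h4 j (hj.trans h3)).trans (h1 j hj), (h4 ξ h3).le.trans_lt h2⟩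
  have h4 : y.1 (ht x) ≠ ⊥ := (hht y).ne_bot (h3.trans_lt (lt_of_not_ge fun h5 =>
    not_lt_bot (h2.trans_le ((hht y).1 ξ h5).le)))
  have h5 : ∃ i, y.1 (ht x) i ≠ 0 := by
    by_contra hn
    push Not at hn
    exact h4 (funext hn)
  obtain ⟨b, hb, hb'⟩ := mv0 x (Nat.find h5)
  refine ⟨b, hb, ht x, fun j hj => ?_, Nat.find h5, fun j hj => ?_, ?_⟩
  · exact ((res_lt _ hj).symm.trans (congrFun hb.2.1 j)).trans (h1 j (hj.trans_le h3))
  · exact (hb' j hj.le).trans (not_not.1 (Nat.find_min h5 hj)).symm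
  · exact (hb' _ le_rfl).le.trans_lt (Nat.pos_of_ne_zero (Nat.find_spec h5))

theorem win (a b : ℕ → L) (ha : StrictMono a) (hb : ∀ n, Good (a n) (b n)) (x : L)
    (hx : ∀ n, a n < x ∧ x < b n) : False := by
  have h1 : ∀ n, res (ht (a n)) x.1 = (a n).1 := fun n => le_antisymm
    ((res_mono _ (show x.1 ≤ (b n).1 from (hx n).2.le)).trans (hb n).2.1.le)
    (((hht _).res_eq le_rfl).ge.trans (res_mono _ (show (a n).1 ≤ x.1 from (hx n).1.le)))
  refine infinite_of_injective_forall_mem (f := fun n : ℕ => (ht (a n), 0))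
    (fun m n h => ha.injective (Subtype.ext ?_)) (fun n => ?_) ((hht x).fin 0)
  · rw [← h1, ← h1, show ht (a m) = ht (a n) from (Prod.ext_iff.1 h).1]
  refine ⟨lt_of_not_ge fun h => (hx n).1.ne (Subtype.ext ?_), ?_⟩
  · rw [← h1, (hht x).res_eq h]
  · have h2 : x.1 (ht (a n)) ≤ (b n).1 (ht (a n)) :=
      Pi.apply_le_of_toLex (x := x.1) (y := (b n).1) (hx n).2.le fun j hj => by
        have h3 := congrFun ((h1 n).trans (hb n).2.1.symm) j
        rwa [res_lt _ hj, res_lt _ hj] at h3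
    exact (Pi.apply_le_of_toLex (x := x.1 (ht (a n))) (y := (b n).1 (ht (a n))) h2
      fun j hj => (Nat.not_lt_zero j hj).elim).trans (hb n).2.2.le

end Pool.Agent.H.MP_8fd369_lc
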